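import Mathlib

/-!
# The second numerical index of the dual can be larger

Let `X` be the space of the pairs `(z, t)` of a complex number `z` and a real convergent sequence
`t` with `lim t = Re z / 4`, with the norm `max (|z|, sup |t n|)`, as a real Banach space. Then
`n'(X) ≤ 1 / 4`, while `X* = ℂ ⊕₁ ℓ₁` and `n'(X*) ≥ 1 / 2`.
-/

set_option autoImplicit false

namespace Pool.Agent.Results.MP_a8e783_an.DualIndexLarger

open Filter Topology

universe u

section Defs

variable {X : Type u} [NormedAddCommGroup X] [NormedSpace ℝ X]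

/-- The numerical radius of `T`: the supremum of `|f (T x)|` over all `(x, f)` with
`‖x‖ = ‖f‖ = f x = 1`. -/
noncomputable def numRadius (T : X →L[ℝ] X) : ℝ :=
  sSup {r : ℝ | ∃ (x : X) (f : X →L[ℝ] ℝ), ‖x‖ = 1 ∧ ‖f‖ = 1 ∧ f x = 1 ∧ r = |f (T x)|}

/-- The distance of `T` to the space of the skew-hermitian operators, that is to the set of all `S`
with numerical radius zero. -/
noncomputable def quotNorm (T : X →L[ℝ] X) : ℝ :=
  sInf {r : ℝ | ∃ S : X →L[ℝ] X, numRadius S = 0 ∧ r = ‖T - S‖}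

variable (X)

/-- The second numerical index `n'(X)`: the infimum of `v(T) / ‖T + Z(X)‖` over all `T` that are not
skew-hermitian. -/
noncomputable def secondIndex : ℝ :=
  sInf {r : ℝ | ∃ T : X →L[ℝ] X, numRadius T ≠ 0 ∧ r = numRadius T / quotNorm T}

variable {X}

theorem bddAbove_num (T : X →L[ℝ] X) : BddAbove
    {r : ℝ | ∃ (x : X) (f : X →L[ℝ] ℝ), ‖x‖ = 1 ∧ ‖f‖ = 1 ∧ f x = 1 ∧ r = |f (T x)|} := by
  refine ⟨‖T‖, ?_⟩
  rintro r ⟨x, f, hx, hf, -, rfl⟩
  calc |f (T x)| ≤ ‖f‖ * ‖T x‖ := f.le_opNorm _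
    _ ≤ 1 * (‖T‖ * ‖x‖) := by rw [hf]; gcongr; exact T.le_opNorm x
    _ = ‖T‖ := by rw [hx]; ring

theorem le_numRadius (T : X →L[ℝ] X) {x : X} {f : X →L[ℝ] ℝ} (hx : ‖x‖ = 1) (hf : ‖f‖ = 1)
    (hfx : f x = 1) : |f (T x)| ≤ numRadius T :=
  le_csSup (bddAbove_num T) ⟨x, f, hx, hf, hfx, rfl⟩

theorem numRadius_nonneg (T : X →L[ℝ] X) : 0 ≤ numRadius T := by
  refine Real.sSup_nonneg ?_
  rintro r ⟨x, f, -, -, -, rfl⟩
  exact abs_nonneg _

theorem numRadius_le {T : X →L[ℝ] X} {c : ℝ} (hc : 0 ≤ c)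
    (h : ∀ (x : X) (f : X →L[ℝ] ℝ), ‖x‖ = 1 → ‖f‖ = 1 → f x = 1 → |f (T x)| ≤ c) :
    numRadius T ≤ c := by
  refine Real.sSup_le ?_ hc
  rintro r ⟨x, f, hx, hf, hfx, rfl⟩
  exact h x f hx hf hfx

theorem numRadius_zero : numRadius (0 : X →L[ℝ] X) = 0 :=
  le_antisymm (numRadius_le le_rfl fun x f _ _ _ => by simp) (numRadius_nonneg _)

theorem numRadius_le_add (T S : X →L[ℝ] X) : numRadius T ≤ numRadius S + ‖T - S‖ := by
  refine numRadius_le (add_nonneg (numRadius_nonneg S) (norm_nonneg _)) ?_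
  intro x f hx hf hfx
  have h1 : f (T x) = f (S x) + f ((T - S) x) := by
    rw [sub_apply, map_sub]; ring
  rw [h1]
  calc |f (S x) + f ((T - S) x)| ≤ |f (S x)| + |f ((T - S) x)| := abs_add_le _ _
    _ ≤ numRadius S + ‖T - S‖ := by
        gcongr
        · exact le_numRadius S hx hf hfx
        · calc |f ((T - S) x)| ≤ ‖f‖ * ‖(T - S) x‖ := f.le_opNorm _
            _ ≤ 1 * (‖T - S‖ * ‖x‖) := by rw [hf]; gcongr; exact (T - S).le_opNorm x
            _ = ‖T - S‖ := by rw [hx]; ring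

theorem numRadius_le_quotNorm (T : X →L[ℝ] X) : numRadius T ≤ quotNorm T := by
  refine le_csInf ⟨_, 0, numRadius_zero, rfl⟩ ?_
  rintro r ⟨S, hS, rfl⟩
  have := numRadius_le_add T S
  rwa [hS, zero_add] at this

theorem quotNorm_le {T S : X →L[ℝ] X} (hS : numRadius S = 0) : quotNorm T ≤ ‖T - S‖ := by
  refine csInf_le ⟨0, ?_⟩ ⟨S, hS, rfl⟩
  rintro r ⟨S, -, rfl⟩
  exact norm_nonneg _

theorem quotNorm_nonneg (T : X →L[ℝ] X) : 0 ≤ quotNorm T :=
  (numRadius_nonneg T).trans (numRadius_le_quotNorm T)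

theorem half_le_secondIndex (hne : ∃ T : X →L[ℝ] X, numRadius T ≠ 0)
    (h : ∀ T : X →L[ℝ] X, ∃ S : X →L[ℝ] X, numRadius S = 0 ∧ ‖T - S‖ ≤ 2 * numRadius T) :
    1 / 2 ≤ secondIndex X := by
  obtain ⟨T₀, hT₀⟩ := hne
  refine le_csInf ⟨_, T₀, hT₀, rfl⟩ ?_
  rintro r ⟨T, hT, rfl⟩
  obtain ⟨S, hS, hTS⟩ := h T
  have h1 : 0 < numRadius T := lt_of_le_of_ne (numRadius_nonneg T) (Ne.symm hT)
  have h2 : 0 < quotNorm T := h1.trans_le (numRadius_le_quotNorm T)
  rw [le_div_iff₀ h2]
  have h3 := (quotNorm_le (T := T) hS).trans hTS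
  linarith

theorem secondIndex_le (hZ : ∀ S : X →L[ℝ] X, numRadius S = 0 → S = 0) {T : X →L[ℝ] X} {c : ℝ}
    (hT : 1 ≤ ‖T‖) (hc : numRadius T ≤ c) : secondIndex X ≤ c := by
  have hT0 : numRadius T ≠ 0 := by
    intro h
    rw [hZ T h, norm_zero] at hT
    linarith
  have h1 : secondIndex X ≤ numRadius T / quotNorm T := by
    refine csInf_le ⟨0, ?_⟩ ⟨T, hT0, rfl⟩
    rintro r ⟨T', -, rfl⟩
    exact div_nonneg (numRadius_nonneg _) (quotNorm_nonneg _)
  have h2 : 1 ≤ quotNorm T := by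
    refine le_csInf ⟨_, 0, numRadius_zero, rfl⟩ ?_
    rintro r ⟨S, hS, rfl⟩
    rw [hZ S hS, sub_zero]
    exact hT
  refine h1.trans (le_trans ?_ hc)
  exact div_le_self (numRadius_nonneg _) h2

end Defs

section Lower

/-! ### Spaces of the form `ℂ ⊕₁ ℓ₁` -/

variable {D : Type u} [NormedAddCommGroup D] [NormedSpace ℝ D]

/-- The data that identify `D` with `ℂ ⊕₁ ℓ₁`. -/
structure Coords (D : Type u) [NormedAddCommGroup D] [NormedSpace ℝ D] where
  W : D →L[ℝ] ℂ
  s : ℕ → D →L[ℝ] ℝ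
  emb : ℂ →L[ℝ] D
  e : ℕ → D
  hasSum : ∀ φ, HasSum (fun n => |s n φ|) (‖φ‖ - ‖W φ‖)
  W_emb : ∀ z, W (emb z) = z
  s_emb : ∀ n z, s n (emb z) = 0
  W_e : ∀ n, W (e n) = 0
  s_e : ∀ m n, s m (e n) = if m = n then 1 else 0

/-- The sign without the value zero. -/
noncomputable def sg (a : ℝ) : ℝ := if 0 ≤ a then 1 else -1

theorem abs_sg (a : ℝ) : |sg a| = 1 := by
  unfold sg; split_ifs <;> simp

theorem sg_mul_self (a : ℝ) : sg a * sg a = 1 := by
  unfold sg; split_ifs <;> simp

theorem sg_mul (a : ℝ) : sg a * a = |a| := by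
  unfold sg
  split_ifs with h
  · rw [abs_of_nonneg h, one_mul]
  · rw [abs_of_neg (not_le.1 h)]; ring

namespace Coords

variable (C : Coords D)

theorem norm_emb (z : ℂ) : ‖C.emb z‖ = ‖z‖ := by
  have h1 := C.hasSum (C.emb z)
  simp only [C.s_emb, C.W_emb, abs_zero] at h1
  have h2 := h1.unique hasSum_zero
  linarith

theorem norm_e (n : ℕ) : ‖C.e n‖ = 1 := by
  have h1 := C.hasSum (C.e n)
  simp only [C.s_e, C.W_e, norm_zero, sub_zero] at h1
  have h3 : HasSum (fun m => |if m = n then (1 : ℝ) else 0|) 1 := by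
    have h4 := hasSum_ite_eq n (1 : ℝ)
    have h5 : (fun m => |if m = n then (1 : ℝ) else 0|) = fun m => if m = n then (1 : ℝ) else 0 := by
      funext m; split_ifs <;> simp
    rw [h5]; exact h4
  exact h1.unique h3

theorem summable_abs (φ : D) : Summable fun n => |C.s n φ| := (C.hasSum φ).summable

theorem tsum_abs (φ : D) : ∑' n, |C.s n φ| = ‖φ‖ - ‖C.W φ‖ := (C.hasSum φ).tsum_eq

theorem summable_mul {σ : ℕ → ℝ} (hσ : ∀ n, |σ n| ≤ 1) (φ : D) :
    Summable fun n => σ n * C.s n φ := by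
  refine Summable.of_norm_bounded (C.summable_abs φ) fun n => ?_
  rw [Real.norm_eq_abs, abs_mul]
  exact mul_le_of_le_one_left (abs_nonneg _) (hσ n)

/-- The functional on `ℂ ⊕₁ ℓ₁` given by an element of the unit ball of `ℂ ⊕_∞ ℓ_∞`. -/
noncomputable def func (w : ℂ) (hw : ‖w‖ ≤ 1) (σ : ℕ → ℝ) (hσ : ∀ n, |σ n| ≤ 1) : D →L[ℝ] ℝ :=
  LinearMap.mkContinuous
    { toFun := fun φ => (starRingEnd ℂ w * C.W φ).re + ∑' n, σ n * C.s n φ
      map_add' := fun φ ψ => by
        have h1 : (fun n => σ n * C.s n (φ + ψ)) = fun n => σ n * C.s n φ + σ n * C.s n ψ := by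
          funext n; rw [map_add]; ring
        rw [h1, (C.summable_mul hσ φ).tsum_add (C.summable_mul hσ ψ), map_add, mul_add,
          Complex.add_re]
        ring
      map_smul' := fun c φ => by
        have h1 : (fun n => σ n * C.s n (c • φ)) = fun n => c * (σ n * C.s n φ) := by
          funext n; rw [map_smul, smul_eq_mul]; ring
        rw [h1, tsum_mul_left, map_smul]
        simp only [Complex.real_smul, RingHom.id_apply, smul_eq_mul]
        have h2 : starRingEnd ℂ w * ((c : ℂ) * C.W φ) = (c : ℂ) * (starRingEnd ℂ w * C.W φ) := by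
          ring
        rw [h2, Complex.re_ofReal_mul]
        ring } 1 (fun φ => by
    rw [one_mul]
    show |(starRingEnd ℂ w * C.W φ).re + ∑' n, σ n * C.s n φ| ≤ ‖φ‖
    have h1 : |(starRingEnd ℂ w * C.W φ).re| ≤ ‖C.W φ‖ := by
      refine (Complex.abs_re_le_norm _).trans ?_
      rw [norm_mul, RCLike.norm_conj]
      exact mul_le_of_le_one_left (norm_nonneg _) hw
    have h2 : |∑' n, σ n * C.s n φ| ≤ ‖φ‖ - ‖C.W φ‖ := by
      rw [← C.tsum_abs φ, ← Real.norm_eq_abs]
      refine tsum_of_norm_bounded (C.summable_abs φ).hasSum fun n => ?_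
      rw [Real.norm_eq_abs, abs_mul]
      exact mul_le_of_le_one_left (abs_nonneg _) (hσ n)
    calc _ ≤ |(starRingEnd ℂ w * C.W φ).re| + |∑' n, σ n * C.s n φ| := abs_add_le _ _
      _ ≤ ‖φ‖ := by linarith)

theorem func_apply (w : ℂ) (hw : ‖w‖ ≤ 1) (σ : ℕ → ℝ) (hσ : ∀ n, |σ n| ≤ 1) (φ : D) :
    C.func w hw σ hσ φ = (starRingEnd ℂ w * C.W φ).re + ∑' n, σ n * C.s n φ := rfl

theorem norm_func_le (w : ℂ) (hw : ‖w‖ ≤ 1) (σ : ℕ → ℝ) (hσ : ∀ n, |σ n| ≤ 1) :
    ‖C.func w hw σ hσ‖ ≤ 1 := LinearMap.mkContinuous_norm_le _ zero_le_one _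

theorem norm_eq_one_of {F : D →L[ℝ] ℝ} {x : D} (hF : ‖F‖ ≤ 1) (hx : ‖x‖ = 1) (hFx : F x = 1) :
    ‖F‖ = 1 := by
  refine le_antisymm hF ?_
  have := F.le_opNorm x
  rwa [hFx, hx, mul_one, norm_one] at this

theorem norm_T_e_le (T : D →L[ℝ] D) (n : ℕ) : ‖T (C.e n)‖ ≤ numRadius T := by
  set y := T (C.e n) with hy
  set τ := sg (C.s n y) with hτ
  obtain ⟨w, hw, hwy⟩ : ∃ w : ℂ, ‖w‖ ≤ 1 ∧ (starRingEnd ℂ w * C.W y).re = τ * ‖C.W y‖ := by
    by_cases h0 : C.W y = 0
    · exact ⟨0, by simp, by rw [h0]; simp⟩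
    · refine ⟨(τ : ℂ) * (C.W y / ‖C.W y‖), ?_, ?_⟩
      · rw [norm_mul, norm_div, Complex.norm_real, Complex.norm_real, norm_norm,
          div_self (norm_ne_zero_iff.2 h0), mul_one, Real.norm_eq_abs, hτ, abs_sg]
      · have h1 : (‖C.W y‖ : ℂ) ≠ 0 := by exact_mod_cast norm_ne_zero_iff.2 h0
        have h2 : starRingEnd ℂ ((τ : ℂ) * (C.W y / ‖C.W y‖)) * C.W y = ((τ * ‖C.W y‖ : ℝ) : ℂ) := by
          rw [map_mul, map_div₀, Complex.conj_ofReal, Complex.conj_ofReal]
          have h3 : starRingEnd ℂ (C.W y) * C.W y = (‖C.W y‖ : ℂ) ^ 2 := by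
            rw [mul_comm, Complex.mul_conj, Complex.normSq_eq_norm_sq]
            push_cast; rfl
          push_cast
          calc (τ : ℂ) * (starRingEnd ℂ (C.W y) / ‖C.W y‖) * C.W y
              = τ * ((starRingEnd ℂ (C.W y) * C.W y) / ‖C.W y‖) := by ring
            _ = τ * ‖C.W y‖ := by rw [h3]; field_simp
        rw [h2, Complex.ofReal_re]
  have hσ : ∀ m, |τ * sg (C.s m y)| ≤ 1 := by
    intro m; rw [abs_mul, hτ, abs_sg, abs_sg, one_mul]
  set F := C.func w hw (fun m => τ * sg (C.s m y)) hσ with hF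
  have hFe : F (C.e n) = 1 := by
    rw [hF, func_apply, C.W_e, mul_zero, Complex.zero_re, zero_add]
    rw [tsum_eq_single n]
    · rw [C.s_e, if_pos rfl, mul_one, hτ, sg_mul_self]
    · intro m hm
      rw [C.s_e, if_neg hm, mul_zero]
  have hFy : F y = τ * ‖y‖ := by
    rw [hF, func_apply, hwy]
    have h1 : (fun m => τ * sg (C.s m y) * C.s m y) = fun m => τ * |C.s m y| := by
      funext m; rw [mul_assoc, sg_mul]
    rw [h1, tsum_mul_left, C.tsum_abs]
    ring
  have h1 := le_numRadius T (C.norm_e n) (norm_eq_one_of (C.norm_func_le w hw _ hσ) (C.norm_e n) hFe)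
    hFe
  rw [← hF, ← hy, hFy, abs_mul, hτ, abs_sg, one_mul, abs_norm] at h1
  exact h1

theorem T_emb_le (T : D →L[ℝ] D) {u : ℂ} (hu : ‖u‖ = 1) :
    |(starRingEnd ℂ u * C.W (T (C.emb u))).re| + (‖T (C.emb u)‖ - ‖C.W (T (C.emb u))‖) ≤
      numRadius T := by
  set y := T (C.emb u) with hy
  set τ := sg (starRingEnd ℂ u * C.W y).re with hτ
  have hσ : ∀ m, |τ * sg (C.s m y)| ≤ 1 := by
    intro m; rw [abs_mul, hτ, abs_sg, abs_sg, one_mul]
  set F := C.func u hu.le (fun m => τ * sg (C.s m y)) hσ with hF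
  have hnu : ‖C.emb u‖ = 1 := by rw [C.norm_emb, hu]
  have hFe : F (C.emb u) = 1 := by
    rw [hF, func_apply, C.W_emb]
    have h1 : (fun n => τ * sg (C.s n y) * C.s n (C.emb u)) = fun _ => 0 := by
      funext n; rw [C.s_emb, mul_zero]
    rw [h1, tsum_zero, add_zero, mul_comm, Complex.mul_conj, Complex.normSq_eq_norm_sq, hu]
    simp
  have hFy : F y = τ * (|(starRingEnd ℂ u * C.W y).re| + (‖y‖ - ‖C.W y‖)) := by
    rw [hF, func_apply]
    have h1 : (fun m => τ * sg (C.s m y) * C.s m y) = fun m => τ * |C.s m y| := by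
      funext m; rw [mul_assoc, sg_mul]
    have h2 : (starRingEnd ℂ u * C.W y).re = τ * |(starRingEnd ℂ u * C.W y).re| := by
      rw [← sg_mul, ← mul_assoc, ← hτ, hτ, sg_mul_self, one_mul]
    rw [h1, tsum_mul_left, C.tsum_abs, mul_add, ← h2]
  have h1 := le_numRadius T hnu (norm_eq_one_of (C.norm_func_le u hu.le _ hσ) hnu hFe) hFe
  have h2 : 0 ≤ ‖y‖ - ‖C.W y‖ := by
    rw [← C.tsum_abs]; exact tsum_nonneg fun n => abs_nonneg _
  rw [← hF, ← hy, hFy, abs_mul, hτ, abs_sg, one_mul, abs_of_nonneg (by positivity)] at h1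
  exact h1

/-- The rotations of the summand `ℂ`. -/
noncomputable def rot (b : ℝ) : D →L[ℝ] D :=
  C.emb.comp ((ContinuousLinearMap.mul ℝ ℂ ((b : ℂ) * Complex.I)).comp C.W)

theorem rot_apply (b : ℝ) (φ : D) : C.rot b φ = C.emb ((b : ℂ) * Complex.I * C.W φ) := rfl

theorem norm_sub_emb (φ : D) (z : ℂ) : ‖φ - C.emb z‖ = ‖C.W φ - z‖ + (‖φ‖ - ‖C.W φ‖) := by
  have h1 := C.hasSum (φ - C.emb z)
  simp only [map_sub, C.s_emb, sub_zero, C.W_emb] at h1
  have h2 := h1.unique (C.hasSum φ)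
  linarith

theorem numRadius_rot (b : ℝ) : numRadius (C.rot b) = 0 := by
  refine le_antisymm (numRadius_le le_rfl ?_) (numRadius_nonneg _)
  intro φ F hφ hF hFφ
  set z := C.W φ with hz
  have hFle : ∀ x, F x ≤ ‖x‖ := by
    intro x
    have := F.le_opNorm x
    rw [hF, one_mul] at this
    exact (le_abs_self _).trans this
  have h1 : ‖z‖ ≤ F (C.emb z) := by
    have h2 := hFle (φ - C.emb z)
    rw [C.norm_sub_emb, ← hz, sub_self, norm_zero, zero_add, map_sub, hFφ, hφ] at h2
    linarith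
  set a := F (C.emb (Complex.I * z)) with ha
  have h2 : C.rot b φ = b • C.emb (Complex.I * z) := by
    rw [rot_apply, ← map_smul, Complex.real_smul, mul_assoc]
  rw [h2, map_smul, smul_eq_mul, ← ha]
  suffices h : a = 0 by rw [h]; simp
  by_cases hz0 : z = 0
  · rw [ha, hz0]; simp
  · have hz' : 0 < ‖z‖ := norm_pos_iff.2 hz0
    have h3 : ∀ t : ℝ, ‖z‖ + t * a ≤ ‖z + (t : ℂ) * (Complex.I * z)‖ := by
      intro t
      calc ‖z‖ + t * a ≤ F (C.emb z) + t * a := by gcongr
        _ = F (C.emb (z + (t : ℂ) * (Complex.I * z))) := by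
            rw [map_add, map_add, ← Complex.real_smul, map_smul, map_smul, smul_eq_mul]
        _ ≤ ‖C.emb (z + (t : ℂ) * (Complex.I * z))‖ := hFle _
        _ = _ := C.norm_emb _
    have h4 : ∀ t : ℝ, ‖z + (t : ℂ) * (Complex.I * z)‖ ^ 2 = ‖z‖ ^ 2 * (1 + t ^ 2) := by
      intro t
      have h5 : z + (t : ℂ) * (Complex.I * z) = z * (1 + t * Complex.I) := by ring
      have h6 : (1 + (t : ℂ) * Complex.I).re * (1 + (t : ℂ) * Complex.I).re +
          (1 + (t : ℂ) * Complex.I).im * (1 + (t : ℂ) * Complex.I).im = 1 + t ^ 2 := by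
        simp only [Complex.add_re, Complex.one_re, Complex.mul_re, Complex.ofReal_re, Complex.I_re,
          Complex.ofReal_im, Complex.I_im, Complex.add_im, Complex.one_im, Complex.mul_im]
        ring
      rw [h5, norm_mul, mul_pow, ← Complex.normSq_eq_norm_sq (1 + t * Complex.I),
        Complex.normSq_apply, h6]
    have h6 := h3 (a / ‖z‖)
    have h7 : 0 ≤ ‖z‖ + a / ‖z‖ * a := by
      have : a / ‖z‖ * a = a ^ 2 / ‖z‖ := by ring
      rw [this]; positivity
    have h8 : (‖z‖ + a / ‖z‖ * a) ^ 2 ≤ ‖z‖ ^ 2 * (1 + (a / ‖z‖) ^ 2) := by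
      rw [← h4]; gcongr
    have h9 : (‖z‖ + a / ‖z‖ * a) ^ 2 = ‖z‖ ^ 2 + 2 * a ^ 2 + (a ^ 2 / ‖z‖) ^ 2 := by
      field_simp
      ring
    have h10 : ‖z‖ ^ 2 * (1 + (a / ‖z‖) ^ 2) = ‖z‖ ^ 2 + a ^ 2 := by
      field_simp
    rw [h9, h10] at h8
    have h11 : a ^ 2 ≤ 0 := by
      have := sq_nonneg (a ^ 2 / ‖z‖)
      linarith
    exact pow_eq_zero_iff (two_ne_zero) |>.1 (le_antisymm h11 (sq_nonneg a))

theorem quad {p h s v : ℝ} (H : ∀ x y : ℝ, |p * x ^ 2 + 2 * h * x * y + s * y ^ 2| ≤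
    v * (x ^ 2 + y ^ 2)) {x y : ℝ} (hxy : x ^ 2 + y ^ 2 = 1) :
    Real.sqrt ((p * x + h * y) ^ 2 + (h * x + s * y) ^ 2) ≤ v := by
  set a := p * x + h * y with ha
  set c := h * x + s * y with hc
  set N := Real.sqrt (a ^ 2 + c ^ 2) with hN
  have hN0 : 0 ≤ N := Real.sqrt_nonneg _
  have hN2 : N ^ 2 = a ^ 2 + c ^ 2 := Real.sq_sqrt (by positivity)
  have hv : 0 ≤ v := by
    have := (abs_nonneg _).trans (H 1 0)
    linarith
  have h1 := (le_abs_self _).trans (H (N * x + a) (N * y + c))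
  have h2 := H (N * x - a) (N * y - c)
  have h3 := (neg_le_of_abs_le h2)
  have h4 : (p * (N * x + a) ^ 2 + 2 * h * (N * x + a) * (N * y + c) + s * (N * y + c) ^ 2) -
      (p * (N * x - a) ^ 2 + 2 * h * (N * x - a) * (N * y - c) + s * (N * y - c) ^ 2) =
      4 * N * (a ^ 2 + c ^ 2) := by
    have e1 : a ^ 2 + c ^ 2 = a * (p * x + h * y) + c * (h * x + s * y) := by
      rw [← ha, ← hc]; ring
    rw [e1]; ring
  have h5 : ((N * x + a) ^ 2 + (N * y + c) ^ 2) + ((N * x - a) ^ 2 + (N * y - c) ^ 2) =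
      4 * N ^ 2 := by
    have e2 : ((N * x + a) ^ 2 + (N * y + c) ^ 2) + ((N * x - a) ^ 2 + (N * y - c) ^ 2) =
      2 * N ^ 2 * (x ^ 2 + y ^ 2) + 2 * (a ^ 2 + c ^ 2) := by ring
    rw [e2, hxy, ← hN2]; ring
  have h6 : 4 * N * N ^ 2 ≤ v * (4 * N ^ 2) := by
    rw [hN2, ← h4, ← hN2, ← h5]
    linarith
  by_cases hN' : N = 0
  · rw [hN']; exact hv
  · have hNpos : 0 < N := lt_of_le_of_ne hN0 (Ne.symm hN')
    have : N * (4 * N ^ 2) ≤ v * (4 * N ^ 2) := by linarith
    exact le_of_mul_le_mul_right this (by positivity)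

theorem hasSum_e (φ : D) : HasSum (fun n => C.s n φ • C.e n) (φ - C.emb (C.W φ)) := by
  have key : ∀ F : Finset ℕ, ‖∑ n ∈ F, C.s n φ • C.e n - (φ - C.emb (C.W φ))‖ =
      ∑' n, |C.s n φ| - ∑ n ∈ F, |C.s n φ| := by
    intro F
    set ψ := ∑ n ∈ F, C.s n φ • C.e n - (φ - C.emb (C.W φ)) with hψ
    have hW : C.W ψ = 0 := by
      rw [hψ, map_sub, map_sub, C.W_emb, sub_self, sub_zero, map_sum]
      refine Finset.sum_eq_zero fun n _ => ?_
      rw [map_smul, C.W_e, smul_zero]
    have hs : ∀ m, |C.s m ψ| = |C.s m φ| - if m ∈ F then |C.s m φ| else 0 := by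
      intro m
      have h1 : C.s m ψ = (if m ∈ F then C.s m φ else 0) - C.s m φ := by
        rw [hψ, map_sub, map_sub, C.s_emb, sub_zero, map_sum]
        congr 1
        have h2 : ∀ n ∈ F, C.s m (C.s n φ • C.e n) = if m = n then C.s n φ else 0 := by
          intro n _
          rw [map_smul, C.s_e, smul_eq_mul]
          split_ifs <;> simp
        rw [Finset.sum_congr rfl h2, Finset.sum_ite_eq]
      rw [h1]
      split_ifs <;> simp
    have h1 := C.tsum_abs ψ
    rw [hW, norm_zero, sub_zero] at h1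
    rw [← h1]
    simp_rw [hs]
    have h2 : Summable fun m => if m ∈ F then |C.s m φ| else 0 :=
      summable_of_ne_finset_zero (s := F) fun m hm => by rw [if_neg hm]
    rw [(C.summable_abs φ).tsum_sub h2]
    congr 1
    rw [tsum_eq_sum (s := F) fun m hm => by rw [if_neg hm]]
    exact Finset.sum_congr rfl fun m hm => by rw [if_pos hm]
  rw [HasSum, SummationFilter.unconditional_filter, tendsto_iff_norm_sub_tendsto_zero]
  simp_rw [key]
  have h1 : Tendsto (fun F : Finset ℕ => ∑ n ∈ F, |C.s n φ|) atTop (𝓝 (∑' n, |C.s n φ|)) :=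
    (C.summable_abs φ).hasSum
  have h2 := (tendsto_const_nhds (x := ∑' n, |C.s n φ|)).sub h1
  rwa [sub_self] at h2

theorem exists_skew (C : Coords D) (T : D →L[ℝ] D) :
    ∃ S : D →L[ℝ] D, numRadius S = 0 ∧ ‖T - S‖ ≤ 2 * numRadius T := by
  set v := numRadius T with hv
  have hv0 : 0 ≤ v := numRadius_nonneg T
  set M1 := C.W (T (C.emb 1)) with hM1
  set MI := C.W (T (C.emb Complex.I)) with hMI
  set b : ℝ := (M1.im - MI.re) / 2 with hb
  refine ⟨C.rot b, C.numRadius_rot b, ?_⟩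
  have hM : ∀ z : ℂ, C.W (T (C.emb z)) = (z.re : ℂ) * M1 + (z.im : ℂ) * MI := by
    intro z
    have h1 : z = z.re • (1 : ℂ) + z.im • Complex.I := by
      rw [Complex.real_smul, Complex.real_smul, mul_one, Complex.re_add_im]
    conv_lhs => rw [h1]
    rw [map_add, map_add, map_add, map_smul, map_smul, map_smul, map_smul, map_smul, map_smul,
      Complex.real_smul, Complex.real_smul]
  -- the quadratic form
  have hq : ∀ u : ℂ, ‖u‖ = 1 → |(starRingEnd ℂ u * C.W (T (C.emb u))).re| +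
      (‖T (C.emb u)‖ - ‖C.W (T (C.emb u))‖) ≤ v := fun u hu => C.T_emb_le T hu
  have hnn : ∀ φ : D, 0 ≤ ‖φ‖ - ‖C.W φ‖ := by
    intro φ
    rw [← C.tsum_abs]; exact tsum_nonneg fun n => abs_nonneg _
  set hh : ℝ := (M1.im + MI.re) / 2 with hhh
  have hre : ∀ z : ℂ, (starRingEnd ℂ z * C.W (T (C.emb z))).re =
      M1.re * z.re ^ 2 + 2 * hh * z.re * z.im + MI.im * z.im ^ 2 := by
    intro z
    rw [hM, hhh]
    simp only [Complex.mul_re, Complex.conj_re, Complex.conj_im, Complex.add_re, Complex.add_im,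
      Complex.ofReal_re, Complex.ofReal_im, Complex.mul_im]
    ring
  have hform : ∀ x y : ℝ, |M1.re * x ^ 2 + 2 * hh * x * y + MI.im * y ^ 2| ≤
      v * (x ^ 2 + y ^ 2) := by
    intro x y
    by_cases h0 : x ^ 2 + y ^ 2 = 0
    · have hx : x = 0 := by nlinarith [sq_nonneg x, sq_nonneg y]
      have hy : y = 0 := by nlinarith [sq_nonneg x, sq_nonneg y]
      rw [hx, hy]; simp
    · have hpos : 0 < x ^ 2 + y ^ 2 := lt_of_le_of_ne (by positivity) (Ne.symm h0)
      set N := Real.sqrt (x ^ 2 + y ^ 2) with hN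
      have hNpos : 0 < N := Real.sqrt_pos.2 hpos
      have hN2 : N ^ 2 = x ^ 2 + y ^ 2 := Real.sq_sqrt hpos.le
      set u : ℂ := ⟨x / N, y / N⟩ with hu
      have hu1 : ‖u‖ = 1 := by
        have h1 : ‖u‖ ^ 2 = 1 := by
          rw [← Complex.normSq_eq_norm_sq, Complex.normSq_apply, hu]
          simp only
          field_simp
          rw [hN2]
        have h2 : (‖u‖ - 1) * (‖u‖ + 1) = 0 := by ring_nf; linarith
        rcases mul_eq_zero.1 h2 with h | h
        · linarith
        · have := norm_nonneg u; linarith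
      have h1 := hq u hu1
      have h2 := hnn (T (C.emb u))
      rw [hre, hu] at h1
      simp only at h1
      rw [← hu] at h1
      have h3 : M1.re * x ^ 2 + 2 * hh * x * y + MI.im * y ^ 2 =
          (M1.re * (x / N) ^ 2 + 2 * hh * (x / N) * (y / N) + MI.im * (y / N) ^ 2) *
            (x ^ 2 + y ^ 2) := by
        rw [← hN2]; field_simp
      rw [h3, abs_mul, abs_of_pos hpos]
      gcongr
      linarith
  -- the values on the unit vectors
  have hRe : ∀ n, ‖(T - C.rot b) (C.e n)‖ ≤ v := by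
    intro n
    have h1 : (T - C.rot b) (C.e n) = T (C.e n) := by
      rw [sub_apply, rot_apply, C.W_e, mul_zero, map_zero, sub_zero]
    rw [h1]; exact C.norm_T_e_le T n
  have hRu : ∀ u : ℂ, ‖u‖ = 1 → ‖(T - C.rot b) (C.emb u)‖ ≤ 2 * v := by
    intro u hu
    have h1 : (T - C.rot b) (C.emb u) = T (C.emb u) - C.emb ((b : ℂ) * Complex.I * u) := by
      rw [sub_apply, rot_apply, C.W_emb]
    rw [h1, C.norm_sub_emb]
    have h2 := hq u hu
    have h3 : u.re ^ 2 + u.im ^ 2 = 1 := by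
      have := Complex.normSq_eq_norm_sq u
      rw [hu, Complex.normSq_apply] at this
      linarith
    have h4 := quad hform h3
    have h5 : ‖C.W (T (C.emb u)) - (b : ℂ) * Complex.I * u‖ =
        Real.sqrt ((M1.re * u.re + hh * u.im) ^ 2 + (hh * u.re + MI.im * u.im) ^ 2) := by
      rw [Complex.norm_def, Complex.normSq_apply, hM]
      congr 1
      simp only [Complex.mul_re, Complex.add_re, Complex.add_im,
        Complex.ofReal_re, Complex.ofReal_im, Complex.mul_im, Complex.sub_re, Complex.sub_im,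
        Complex.I_re, Complex.I_im]
      rw [hhh, hb]
      ring
    rw [h5]
    have h6 := abs_nonneg (starRingEnd ℂ u * C.W (T (C.emb u))).re
    linarith
  have hRz : ∀ z : ℂ, ‖(T - C.rot b) (C.emb z)‖ ≤ 2 * v * ‖z‖ := by
    intro z
    by_cases hz : z = 0
    · rw [hz]; simp
    · have hz' : 0 < ‖z‖ := norm_pos_iff.2 hz
      have h1 : z = ‖z‖ • ((‖z‖⁻¹ : ℝ) • z) := by
        rw [smul_smul, mul_inv_cancel₀ hz'.ne', one_smul]
      have h2 : ‖(‖z‖⁻¹ : ℝ) • z‖ = 1 := by
        rw [norm_smul, norm_inv, norm_norm, inv_mul_cancel₀ hz'.ne']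
      calc ‖(T - C.rot b) (C.emb z)‖ = ‖‖z‖ • (T - C.rot b) (C.emb ((‖z‖⁻¹ : ℝ) • z))‖ := by
            rw [← map_smul, ← map_smul, ← h1]
        _ = ‖z‖ * ‖(T - C.rot b) (C.emb ((‖z‖⁻¹ : ℝ) • z))‖ := by
            rw [norm_smul, norm_norm]
        _ ≤ ‖z‖ * (2 * v) := by gcongr; exact hRu _ h2
        _ = _ := by ring
  refine ContinuousLinearMap.opNorm_le_bound _ (by positivity) fun φ => ?_
  have h1 := (T - C.rot b).hasSum (C.hasSum_e φ)
  have h2 : ‖(T - C.rot b) (φ - C.emb (C.W φ))‖ ≤ (‖φ‖ - ‖C.W φ‖) * v := by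
    rw [← h1.tsum_eq]
    refine tsum_of_norm_bounded ((C.hasSum φ).mul_right v) fun n => ?_
    rw [map_smul, norm_smul, Real.norm_eq_abs]
    gcongr
    exact hRe n
  have h3 : (T - C.rot b) φ = (T - C.rot b) (φ - C.emb (C.W φ)) + (T - C.rot b) (C.emb (C.W φ)) := by
    rw [← map_add, sub_add_cancel]
  rw [h3]
  have h4 := hRz (C.W φ)
  have h5 := hnn φ
  calc _ ≤ _ := norm_add_le _ _
    _ ≤ (‖φ‖ - ‖C.W φ‖) * v + 2 * v * ‖C.W φ‖ := by gcongr
    _ ≤ 2 * v * ‖φ‖ := by nlinarith [mul_nonneg hv0 h5]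

theorem half_le (C : Coords D) : 1 / 2 ≤ secondIndex D := by
  refine half_le_secondIndex ⟨ContinuousLinearMap.id ℝ D, ?_⟩ C.exists_skew
  have h1 := C.norm_T_e_le (ContinuousLinearMap.id ℝ D) 0
  rw [ContinuousLinearMap.id_apply, C.norm_e] at h1
  linarith

end Coords

end Lower

section Space

/-! ### The space -/

/-- The functional whose kernel is the space. -/
noncomputable def gap : ℂ × C(OnePoint ℕ, ℝ) →L[ℝ] ℝ :=
  (ContinuousMap.evalCLM ℝ (OnePoint.infty : OnePoint ℕ)).comp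
    (ContinuousLinearMap.snd ℝ ℂ C(OnePoint ℕ, ℝ)) -
  (1 / 4 : ℝ) • Complex.reCLM.comp (ContinuousLinearMap.fst ℝ ℂ C(OnePoint ℕ, ℝ))

/-- The submodule of all `(z, t)` with `t ∞ = Re z / 4`. -/
noncomputable def V : Submodule ℝ (ℂ × C(OnePoint ℕ, ℝ)) :=
  LinearMap.ker (gap : ℂ × C(OnePoint ℕ, ℝ) →ₗ[ℝ] ℝ)

/-- The space of all `(z, t)` with `lim t = Re z / 4`. -/
def Sp : Type := ↥V

noncomputable instance instNormedSp : NormedAddCommGroup Sp :=
  inferInstanceAs (NormedAddCommGroup ↥V)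

noncomputable instance instSpaceSp : NormedSpace ℝ Sp := inferInstanceAs (NormedSpace ℝ ↥V)

theorem mem_V (x : ℂ × C(OnePoint ℕ, ℝ)) : x ∈ V ↔ x.2 OnePoint.infty = x.1.re / 4 := by
  unfold V
  rw [LinearMap.mem_ker]
  have : (gap : ℂ × C(OnePoint ℕ, ℝ) →ₗ[ℝ] ℝ) x = x.2 OnePoint.infty - 1 / 4 * x.1.re := rfl
  rw [this]
  constructor
  · intro h; linarith
  · intro h; linarith

theorem isClosed_V : IsClosed (V : Set (ℂ × C(OnePoint ℕ, ℝ))) :=
  (isClosed_singleton (x := (0 : ℝ))).preimage gap.continuous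

theorem complete_Sp : CompleteSpace Sp := isClosed_V.completeSpace_coe

theorem norm_eq_max (x : Sp) : ‖x‖ = max ‖x.1.1‖ ‖x.1.2‖ := rfl

/-- The first coordinate. -/
noncomputable def fs : Sp →L[ℝ] ℂ :=
  LinearMap.mkContinuous
    { toFun := fun x => x.1.1
      map_add' := fun _ _ => rfl
      map_smul' := fun _ _ => rfl } 1 (fun x => by
        rw [one_mul, norm_eq_max]; exact le_max_left _ _)

/-- The coordinates of the sequence. -/
noncomputable def co (n : ℕ) : Sp →L[ℝ] ℝ :=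
  LinearMap.mkContinuous
    { toFun := fun x => x.1.2 (n : OnePoint ℕ)
      map_add' := fun _ _ => rfl
      map_smul' := fun _ _ => rfl } 1 (fun x => by
        rw [one_mul, norm_eq_max]
        exact (x.1.2.norm_coe_le_norm _).trans (le_max_right _ _))

/-- The element with given coordinates. -/
noncomputable def mk (z : ℂ) (t : ℕ → ℝ) (h : Tendsto t atTop (𝓝 (z.re / 4))) : Sp :=
  ⟨(z, OnePoint.continuousMapMkNat t (z.re / 4) h), by rw [mem_V]; rfl⟩

@[simp] theorem fs_mk (z : ℂ) (t : ℕ → ℝ) (h : Tendsto t atTop (𝓝 (z.re / 4))) :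
    fs (mk z t h) = z := rfl

@[simp] theorem co_mk (z : ℂ) (t : ℕ → ℝ) (h : Tendsto t atTop (𝓝 (z.re / 4))) (n : ℕ) :
    co n (mk z t h) = t n := rfl

theorem infty_eq (x : Sp) : x.1.2 OnePoint.infty = (fs x).re / 4 := (mem_V _).1 x.2

theorem tendsto_co (x : Sp) : Tendsto (fun n => co n x) atTop (𝓝 ((fs x).re / 4)) := by
  rw [← infty_eq]
  exact (OnePoint.continuous_iff_from_nat x.1.2).1 x.1.2.continuous

theorem norm_le_iff (x : Sp) {c : ℝ} (hc : 0 ≤ c) : ‖x‖ ≤ c ↔ ‖fs x‖ ≤ c ∧ ∀ n, |co n x| ≤ c := by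
  rw [norm_eq_max, max_le_iff]
  refine and_congr Iff.rfl ?_
  rw [ContinuousMap.norm_le _ hc]
  constructor
  · intro h n; exact h n
  · intro h p
    induction p using OnePoint.rec with
    | infty =>
      have h2 := (tendsto_co x).abs
      rw [Real.norm_eq_abs, infty_eq]
      exact le_of_tendsto' h2 h
    | coe n => exact h n

theorem norm_fs_le (x : Sp) : ‖fs x‖ ≤ ‖x‖ := ((norm_le_iff x (norm_nonneg x)).1 le_rfl).1

theorem abs_co_le (x : Sp) (n : ℕ) : |co n x| ≤ ‖x‖ := ((norm_le_iff x (norm_nonneg x)).1 le_rfl).2 n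

theorem ext_co {x y : Sp} (h1 : fs x = fs y) (h2 : ∀ n, co n x = co n y) : x = y := by
  have h3 : ‖x - y‖ ≤ 0 := by
    rw [norm_le_iff _ le_rfl]
    refine ⟨by rw [map_sub, h1, sub_self, norm_zero], fun n => by
      rw [map_sub, h2, sub_self, abs_zero]⟩
  exact sub_eq_zero.1 (norm_le_zero_iff.1 h3)

theorem tendsto_single (n : ℕ) : Tendsto (fun m : ℕ => if m = n then (1 : ℝ) else 0) atTop
    (𝓝 ((0 : ℂ).re / 4)) := by
  rw [Complex.zero_re, zero_div]
  refine tendsto_const_nhds.congr' ?_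
  filter_upwards [eventually_gt_atTop n] with m hm
  rw [if_neg (by omega)]

/-- The unit vectors of the sequence part. -/
noncomputable def dl (n : ℕ) : Sp := mk 0 (fun m => if m = n then 1 else 0) (tendsto_single n)

/-- The element `(1, 1 / 4)`. -/
noncomputable def c1 : Sp := mk 1 (fun _ => 1 / 4) (by
  rw [Complex.one_re]; exact tendsto_const_nhds)

/-- The element `(i, 0)`. -/
noncomputable def cI : Sp := mk Complex.I (fun _ => 0) (by
  rw [Complex.I_re, zero_div]; exact tendsto_const_nhds)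

theorem hasSum_dl (x : Sp) : HasSum (fun n => (co n x - (fs x).re / 4) • dl n)
    (x - (fs x).re • c1 - (fs x).im • cI) := by
  rw [HasSum, SummationFilter.unconditional_filter, Metric.tendsto_atTop]
  intro ε hε
  have h1 := (Metric.tendsto_atTop.1 (tendsto_co x)) (ε / 2) (by positivity)
  obtain ⟨N, hN⟩ := h1
  refine ⟨Finset.range N, fun F hF => ?_⟩
  rw [dist_eq_norm]
  refine lt_of_le_of_lt ?_ (half_lt_self hε)
  refine (norm_le_iff _ (by positivity)).2 ?_
  constructor
  · have : fs (∑ n ∈ F, (co n x - (fs x).re / 4) • dl n -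
        (x - (fs x).re • c1 - (fs x).im • cI)) = 0 := by
      rw [map_sub, map_sub, map_sub, map_smul, map_smul, map_sum]
      have h2 : ∀ n ∈ F, fs ((co n x - (fs x).re / 4) • dl n) = 0 := by
        intro n _
        rw [map_smul]; unfold dl; rw [fs_mk, smul_zero]
      rw [Finset.sum_eq_zero h2]
      unfold c1 cI
      rw [fs_mk, fs_mk, Complex.real_smul, Complex.real_smul, mul_one, zero_sub, sub_sub,
        Complex.re_add_im, sub_self, neg_zero]
    rw [this, norm_zero]; positivity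
  · intro m
    have h3 : co m (∑ n ∈ F, (co n x - (fs x).re / 4) • dl n -
        (x - (fs x).re • c1 - (fs x).im • cI)) =
        (if m ∈ F then (co m x - (fs x).re / 4) else 0) - (co m x - (fs x).re / 4) := by
      rw [map_sub, map_sub, map_sub, map_smul, map_smul, map_sum]
      have h2 : ∀ n ∈ F, co m ((co n x - (fs x).re / 4) • dl n) =
          if m = n then (co n x - (fs x).re / 4) else 0 := by
        intro n _
        rw [map_smul]; unfold dl; rw [co_mk, smul_eq_mul]
        split_ifs <;> simp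
      rw [Finset.sum_congr rfl h2, Finset.sum_ite_eq]
      unfold c1 cI
      rw [co_mk, co_mk, smul_eq_mul, smul_eq_mul]
      ring
    rw [h3]
    by_cases hm : m ∈ F
    · rw [if_pos hm, sub_self, abs_zero]; positivity
    · rw [if_neg hm, zero_sub, abs_neg]
      have hmN : N ≤ m := by
        by_contra h
        exact hm (hF (Finset.mem_range.2 (not_le.1 h)))
      have := hN m hmN
      rw [Real.dist_eq] at this
      exact this.le

/-- The dual space. -/
abbrev Du : Type := Sp →L[ℝ] ℝ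

theorem sum_abs_le (φ : Du) (F : Finset ℕ) : ∑ n ∈ F, |φ (dl n)| ≤ ‖φ‖ := by
  set x : Sp := ∑ n ∈ F, sg (φ (dl n)) • dl n with hx
  have hx1 : ‖x‖ ≤ 1 := by
    rw [norm_le_iff _ zero_le_one]
    constructor
    · have : fs x = 0 := by
        rw [hx, map_sum]
        refine Finset.sum_eq_zero fun n _ => ?_
        rw [map_smul]; unfold dl; rw [fs_mk, smul_zero]
      rw [this, norm_zero]; exact zero_le_one
    · intro m
      have : co m x = if m ∈ F then sg (φ (dl m)) else 0 := by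
        rw [hx, map_sum]
        have h2 : ∀ n ∈ F, co m (sg (φ (dl n)) • dl n) = if m = n then sg (φ (dl n)) else 0 := by
          intro n _
          rw [map_smul]
          have : co m (dl n) = if m = n then 1 else 0 := rfl
          rw [this, smul_eq_mul]
          split_ifs <;> simp
        rw [Finset.sum_congr rfl h2, Finset.sum_ite_eq]
      rw [this]
      split_ifs
      · rw [abs_sg]
      · simp
  calc ∑ n ∈ F, |φ (dl n)| = φ x := by
        rw [hx, map_sum]
        refine Finset.sum_congr rfl fun n _ => ?_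
        rw [map_smul, smul_eq_mul, sg_mul]
    _ ≤ ‖φ‖ * ‖x‖ := (le_abs_self _).trans (φ.le_opNorm x)
    _ ≤ ‖φ‖ * 1 := by gcongr
    _ = ‖φ‖ := mul_one _

theorem summable_dl (φ : Du) : Summable fun n => |φ (dl n)| :=
  summable_of_sum_le (fun n => abs_nonneg _) (sum_abs_le φ)

theorem summable_dl' (φ : Du) : Summable fun n => φ (dl n) :=
  Summable.of_norm (summable_dl φ)

/-- The sum of the coordinates of the sequence part of a functional. -/
noncomputable def sumC : Du →L[ℝ] ℝ :=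
  LinearMap.mkContinuous
    { toFun := fun φ => ∑' n, φ (dl n)
      map_add' := fun φ ψ => by
        exact (summable_dl' φ).tsum_add (summable_dl' ψ)
      map_smul' := fun c φ => by
        have : (fun n => (c • φ) (dl n)) = fun n => c * φ (dl n) := rfl
        rw [this, tsum_mul_left]
        rfl } 1 (fun φ => by
    rw [one_mul]
    have h1 : ‖∑' n, φ (dl n)‖ ≤ ∑' n, |φ (dl n)| := norm_tsum_le_tsum_norm (summable_dl φ)
    exact h1.trans (Real.tsum_le_of_sum_le (fun n => abs_nonneg _) (sum_abs_le φ)))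

theorem sumC_apply (φ : Du) : sumC φ = ∑' n, φ (dl n) := rfl

/-- The complex coordinate of a functional. -/
noncomputable def Wc : Du →L[ℝ] ℂ :=
  Complex.ofRealCLM.comp (ContinuousLinearMap.apply ℝ ℝ c1 - (1 / 4 : ℝ) • sumC) +
    (ContinuousLinearMap.mul ℝ ℂ Complex.I).comp
      (Complex.ofRealCLM.comp (ContinuousLinearMap.apply ℝ ℝ cI))

theorem Wc_re (φ : Du) : (Wc φ).re = φ c1 - 1 / 4 * ∑' n, φ (dl n) := by
  have : Wc φ = ((φ c1 - 1 / 4 * ∑' n, φ (dl n) : ℝ) : ℂ) + Complex.I * ((φ cI : ℝ) : ℂ) := rfl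
  rw [this]
  simp

theorem Wc_im (φ : Du) : (Wc φ).im = φ cI := by
  have : Wc φ = ((φ c1 - 1 / 4 * ∑' n, φ (dl n) : ℝ) : ℂ) + Complex.I * ((φ cI : ℝ) : ℂ) := rfl
  rw [this]
  simp

theorem rep (φ : Du) (x : Sp) : HasSum (fun n => φ (dl n) * co n x)
    (φ x - (starRingEnd ℂ (Wc φ) * fs x).re) := by
  have h1 := φ.hasSum (hasSum_dl x)
  have h2 : HasSum (fun n => (fs x).re / 4 * φ (dl n)) ((fs x).re / 4 * ∑' n, φ (dl n)) :=
    (summable_dl' φ).hasSum.mul_left _
  have h3 := h1.add h2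
  have h4 : (fun n => φ (dl n) * co n x) =
      fun n => φ ((co n x - (fs x).re / 4) • dl n) + (fs x).re / 4 * φ (dl n) := by
    funext n
    rw [map_smul, smul_eq_mul]; ring
  rw [h4]
  have h5 : φ x - (starRingEnd ℂ (Wc φ) * fs x).re =
      φ (x - (fs x).re • c1 - (fs x).im • cI) + (fs x).re / 4 * ∑' n, φ (dl n) := by
    rw [Complex.mul_re, Complex.conj_re, Complex.conj_im, Wc_re, Wc_im, map_sub, map_sub, map_smul,
      map_smul, smul_eq_mul, smul_eq_mul]
    ring
  rw [h5]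
  exact h3

theorem tendsto_trunc (σ : ℕ → ℝ) (c : ℝ) (N : ℕ) :
    Tendsto (fun n => if n < N then σ n else c) atTop (𝓝 c) := by
  refine tendsto_const_nhds.congr' ?_
  filter_upwards [eventually_ge_atTop N] with m hm
  rw [if_neg (by omega)]

theorem norm_formula (φ : Du) : HasSum (fun n => |φ (dl n)|) (‖φ‖ - ‖Wc φ‖) := by
  have hs := summable_dl φ
  suffices h : ∑' n, |φ (dl n)| = ‖φ‖ - ‖Wc φ‖ by
    rw [← h]; exact hs.hasSum
  apply le_antisymm
  · -- testing on elements of the unit ball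
    obtain ⟨u, hu, hwu⟩ : ∃ u : ℂ, ‖u‖ = 1 ∧ (starRingEnd ℂ (Wc φ) * u).re = ‖Wc φ‖ := by
      by_cases h0 : Wc φ = 0
      · exact ⟨1, by simp, by rw [h0]; simp⟩
      · refine ⟨Wc φ / ‖Wc φ‖, ?_, ?_⟩
        · rw [norm_div, Complex.norm_real, norm_norm, div_self (norm_ne_zero_iff.2 h0)]
        · have h1 : (‖Wc φ‖ : ℂ) ≠ 0 := by exact_mod_cast norm_ne_zero_iff.2 h0
          have h3 : starRingEnd ℂ (Wc φ) * Wc φ = (‖Wc φ‖ : ℂ) ^ 2 := by
            rw [mul_comm, Complex.mul_conj, Complex.normSq_eq_norm_sq]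
            push_cast; rfl
          have h2 : starRingEnd ℂ (Wc φ) * (Wc φ / ‖Wc φ‖) = ((‖Wc φ‖ : ℝ) : ℂ) := by
            calc starRingEnd ℂ (Wc φ) * (Wc φ / ‖Wc φ‖)
                = (starRingEnd ℂ (Wc φ) * Wc φ) / ‖Wc φ‖ := by ring
              _ = _ := by rw [h3]; field_simp
          rw [h2, Complex.ofReal_re]
    have key : ∀ N : ℕ, 2 * ∑ n ∈ Finset.range N, |φ (dl n)| - ∑' n, |φ (dl n)| ≤
        ‖φ‖ - ‖Wc φ‖ := by
      intro N
      set x : Sp := mk u (fun n => if n < N then sg (φ (dl n)) else u.re / 4)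
        (tendsto_trunc _ _ N) with hx
      have hure : |u.re / 4| ≤ 1 := by
        have h1 := Complex.abs_re_le_norm u
        rw [hu] at h1
        rw [abs_div, abs_of_pos (by norm_num : (0 : ℝ) < 4)]
        linarith
      have hx1 : ‖x‖ ≤ 1 := by
        rw [norm_le_iff _ zero_le_one, hx, fs_mk]
        refine ⟨hu.le, fun n => ?_⟩
        rw [co_mk]
        split_ifs
        · rw [abs_sg]
        · exact hure
      have h1 := rep φ x
      have h2 : fs x = u := by rw [hx, fs_mk]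
      rw [h2, hwu] at h1
      have h3 : φ x ≤ ‖φ‖ := by
        calc φ x ≤ ‖φ‖ * ‖x‖ := (le_abs_self _).trans (φ.le_opNorm x)
          _ ≤ ‖φ‖ * 1 := by gcongr
          _ = ‖φ‖ := mul_one _
      have h4 : HasSum (fun n => 2 * (if n ∈ Finset.range N then |φ (dl n)| else 0) - |φ (dl n)|)
          (2 * ∑ n ∈ Finset.range N, |φ (dl n)| - ∑' n, |φ (dl n)|) := by
        refine HasSum.sub (HasSum.mul_left 2 ?_) hs.hasSum
        have h5 : HasSum (fun n => if n ∈ Finset.range N then |φ (dl n)| else 0)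
            (∑ n ∈ Finset.range N, if n ∈ Finset.range N then |φ (dl n)| else 0) :=
          hasSum_sum_of_ne_finset_zero (fun n hn => by rw [if_neg hn])
        rwa [Finset.sum_congr rfl (fun n hn => if_pos hn)] at h5
      have h5 := hasSum_le (fun n => ?_) h4 h1
      · linarith
      · rw [hx, co_mk]
        by_cases hn : n < N
        · rw [if_pos (Finset.mem_range.2 hn), if_pos hn, mul_comm (φ (dl n)), sg_mul]
          linarith
        · rw [if_neg (by rwa [Finset.mem_range]), if_neg hn]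
          have h6 : |φ (dl n) * (u.re / 4)| ≤ |φ (dl n)| := by
            rw [abs_mul]
            exact mul_le_of_le_one_right (abs_nonneg _) hure
          have := neg_abs_le (φ (dl n) * (u.re / 4))
          linarith
    have hlim : Tendsto (fun N : ℕ => 2 * ∑ n ∈ Finset.range N, |φ (dl n)| - ∑' n, |φ (dl n)|)
        atTop (𝓝 (2 * ∑' n, |φ (dl n)| - ∑' n, |φ (dl n)|)) :=
      (hs.hasSum.tendsto_sum_nat.const_mul 2).sub tendsto_const_nhds
    have := le_of_tendsto' hlim key
    linarith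
  · rw [sub_le_iff_le_add]
    refine ContinuousLinearMap.opNorm_le_bound _ (add_nonneg (tsum_nonneg fun n => abs_nonneg _)
      (norm_nonneg _)) fun x => ?_
    have h1 := rep φ x
    have h2 : |φ x - (starRingEnd ℂ (Wc φ) * fs x).re| ≤ (∑' n, |φ (dl n)|) * ‖x‖ := by
      rw [← h1.tsum_eq, ← Real.norm_eq_abs]
      refine tsum_of_norm_bounded (hs.hasSum.mul_right ‖x‖) fun n => ?_
      rw [Real.norm_eq_abs, abs_mul]
      gcongr
      exact abs_co_le x n
    have h3 : |(starRingEnd ℂ (Wc φ) * fs x).re| ≤ ‖Wc φ‖ * ‖x‖ := by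
      refine (Complex.abs_re_le_norm _).trans ?_
      rw [norm_mul, RCLike.norm_conj]
      gcongr
      exact norm_fs_le x
    calc ‖φ x‖ = |(φ x - (starRingEnd ℂ (Wc φ) * fs x).re) +
          (starRingEnd ℂ (Wc φ) * fs x).re| := by rw [sub_add_cancel]; rfl
      _ ≤ _ := abs_add_le _ _
      _ ≤ (∑' n, |φ (dl n)|) * ‖x‖ + ‖Wc φ‖ * ‖x‖ := by gcongr
      _ = _ := by ring

/-- The dual space as `ℂ ⊕₁ ℓ₁`. -/
noncomputable def coordsDu : Coords Du where
  W := Wc
  s := fun n => ContinuousLinearMap.apply ℝ ℝ (dl n)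
  emb := LinearMap.mkContinuous
    { toFun := fun z => Complex.reCLM.comp ((ContinuousLinearMap.mul ℝ ℂ (starRingEnd ℂ z)).comp fs)
      map_add' := fun z w => by
        ext x
        show (starRingEnd ℂ (z + w) * fs x).re = (starRingEnd ℂ z * fs x).re +
          (starRingEnd ℂ w * fs x).re
        rw [map_add, add_mul, Complex.add_re]
      map_smul' := fun c z => by
        ext x
        show (starRingEnd ℂ (c • z) * fs x).re = c * (starRingEnd ℂ z * fs x).re
        rw [Complex.real_smul, map_mul, Complex.conj_ofReal, mul_assoc, Complex.re_ofReal_mul] } 1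
    (fun z => by
      refine ContinuousLinearMap.opNorm_le_bound _ (by positivity) fun x => ?_
      show |(starRingEnd ℂ z * fs x).re| ≤ 1 * ‖z‖ * ‖x‖
      refine (Complex.abs_re_le_norm _).trans ?_
      rw [norm_mul, RCLike.norm_conj, one_mul]
      gcongr
      exact norm_fs_le x)
  e := co
  hasSum := norm_formula
  W_emb := fun z => by
    have h0 : ∀ n, (starRingEnd ℂ z * fs (dl n)).re = 0 := by
      intro n; unfold dl; rw [fs_mk, mul_zero, Complex.zero_re]
    apply Complex.ext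
    · rw [Wc_re]
      show (starRingEnd ℂ z * fs c1).re - 1 / 4 * ∑' n, (starRingEnd ℂ z * fs (dl n)).re = z.re
      simp only [h0, tsum_zero]
      unfold c1
      rw [fs_mk, mul_one, Complex.conj_re]
      ring
    · rw [Wc_im]
      show (starRingEnd ℂ z * fs cI).re = z.im
      unfold cI
      rw [fs_mk]
      simp
  s_emb := fun n z => by
    show (starRingEnd ℂ z * fs (dl n)).re = 0
    unfold dl
    rw [fs_mk, mul_zero, Complex.zero_re]
  W_e := fun n => by
    have h0 : ∀ m, co n (dl m) = if n = m then 1 else 0 := fun m => rfl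
    apply Complex.ext
    · rw [Wc_re]
      simp only [h0]
      rw [tsum_ite_eq' n (fun _ => (1 : ℝ))]
      unfold c1
      rw [co_mk]
      simp
    · rw [Wc_im]
      unfold cI
      rw [co_mk]
      simp
  s_e := fun m n => by
    show co n (dl m) = if m = n then 1 else 0
    have h0 : co n (dl m) = if n = m then 1 else 0 := rfl
    rw [h0]
    by_cases h : m = n
    · rw [if_pos h, if_pos h.symm]
    · rw [if_neg h, if_neg (Ne.symm h)]

theorem half_le_dual : 1 / 2 ≤ secondIndex Du := coordsDu.half_le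

/-- The operator `(z, t) ↦ (i z, - Im z / 4)`. -/
noncomputable def Top : Sp →L[ℝ] Sp :=
  LinearMap.mkContinuous
    { toFun := fun x => (-(fs x).im) • c1 + (fs x).re • cI
      map_add' := fun x y => by
        rw [map_add, Complex.add_im, Complex.add_re]
        module
      map_smul' := fun c x => by
        rw [map_smul, Complex.real_smul, Complex.im_ofReal_mul, Complex.re_ofReal_mul]
        simp only [RingHom.id_apply]
        module } 2 (fun x => by
    have h1 : ‖c1‖ ≤ 1 := by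
      rw [norm_le_iff _ zero_le_one]
      refine ⟨by unfold c1; rw [fs_mk, norm_one], fun n => ?_⟩
      unfold c1; rw [co_mk]; norm_num
    have h2 : ‖cI‖ ≤ 1 := by
      rw [norm_le_iff _ zero_le_one]
      refine ⟨by unfold cI; rw [fs_mk, Complex.norm_I], fun n => ?_⟩
      unfold cI; rw [co_mk]; norm_num
    have h3 := norm_fs_le x
    have h4 := Complex.abs_im_le_norm (fs x)
    have h5 := Complex.abs_re_le_norm (fs x)
    calc ‖(-(fs x).im) • c1 + (fs x).re • cI‖ ≤ ‖(-(fs x).im) • c1‖ + ‖(fs x).re • cI‖ :=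
          norm_add_le _ _
      _ = |(fs x).im| * ‖c1‖ + |(fs x).re| * ‖cI‖ := by
          rw [norm_smul, norm_smul, Real.norm_eq_abs, Real.norm_eq_abs, abs_neg]
      _ ≤ ‖x‖ * 1 + ‖x‖ * 1 := by
          gcongr
          · exact h4.trans h3
          · exact h5.trans h3
      _ = 2 * ‖x‖ := by ring)

theorem Top_apply (x : Sp) : Top x = (-(fs x).im) • c1 + (fs x).re • cI := rfl

theorem fs_Top (x : Sp) : fs (Top x) = Complex.I * fs x := by
  rw [Top_apply, map_add, map_smul, map_smul]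
  unfold c1 cI
  rw [fs_mk, fs_mk]
  apply Complex.ext <;> simp

theorem co_Top (x : Sp) (n : ℕ) : co n (Top x) = -(fs x).im / 4 := by
  rw [Top_apply, map_add, map_smul, map_smul]
  unfold c1 cI
  rw [co_mk, co_mk]
  simp
  ring

theorem one_le_norm_Top : 1 ≤ ‖Top‖ := by
  have h1 : ‖c1‖ ≤ 1 := by
    rw [norm_le_iff _ zero_le_one]
    refine ⟨by unfold c1; rw [fs_mk, norm_one], fun n => ?_⟩
    unfold c1; rw [co_mk]; norm_num
  have h2 : (1 : ℝ) ≤ ‖Top c1‖ := by
    have h3 := norm_fs_le (Top c1)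
    rw [fs_Top] at h3
    have h4 : ‖Complex.I * fs c1‖ = 1 := by unfold c1; rw [fs_mk]; simp
    rwa [h4] at h3
  calc (1 : ℝ) ≤ ‖Top c1‖ := h2
    _ ≤ ‖Top‖ * ‖c1‖ := Top.le_opNorm _
    _ ≤ ‖Top‖ * 1 := by gcongr
    _ = ‖Top‖ := mul_one _

theorem numRadius_Top_le : numRadius Top ≤ 1 / 4 := by
  refine numRadius_le (by norm_num) fun x φ hx hφ hφx => ?_
  have hs := summable_dl φ
  have hsum : ∑' n, |φ (dl n)| = ‖φ‖ - ‖Wc φ‖ := (norm_formula φ).tsum_eq
  have hfs : ‖fs x‖ ≤ 1 := (norm_fs_le x).trans hx.le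
  have hco : ∀ n, |co n x| ≤ 1 := fun n => (abs_co_le x n).trans hx.le
  -- the complex part is aligned
  have h1 := rep φ x
  have h2 : φ x - (starRingEnd ℂ (Wc φ) * fs x).re ≤ ∑' n, |φ (dl n)| := by
    refine hasSum_le (fun n => ?_) h1 hs.hasSum
    calc φ (dl n) * co n x ≤ |φ (dl n) * co n x| := le_abs_self _
      _ = |φ (dl n)| * |co n x| := abs_mul _ _
      _ ≤ |φ (dl n)| * 1 := by gcongr; exact hco n
      _ = _ := mul_one _
  have h3 : ‖Wc φ‖ ≤ (starRingEnd ℂ (Wc φ) * fs x).re := by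
    rw [hsum, hφx, hφ] at h2
    linarith
  set a := starRingEnd ℂ (Wc φ) * fs x with ha
  have h4 : ‖a‖ ≤ a.re := by
    refine le_trans ?_ h3
    rw [ha, norm_mul, RCLike.norm_conj]
    exact mul_le_of_le_one_right (norm_nonneg _) hfs
  have h5 : a.im = 0 := by
    have h6 : ‖a‖ ^ 2 = a.re ^ 2 + a.im ^ 2 := by
      rw [← Complex.normSq_eq_norm_sq, Complex.normSq_apply]; ring
    have h7 : ‖a‖ ^ 2 ≤ a.re ^ 2 := by gcongr
    have h8 : a.im ^ 2 ≤ 0 := by linarith
    exact pow_eq_zero_iff (two_ne_zero) |>.1 (le_antisymm h8 (sq_nonneg _))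
  -- the value
  have h6 := rep φ (Top x)
  have h7 : (starRingEnd ℂ (Wc φ) * fs (Top x)).re = 0 := by
    rw [fs_Top]
    have : starRingEnd ℂ (Wc φ) * (Complex.I * fs x) = Complex.I * a := by rw [ha]; ring
    rw [this, Complex.I_mul_re, h5, neg_zero]
  rw [h7, sub_zero] at h6
  simp only [co_Top] at h6
  rw [← h6.tsum_eq, ← Real.norm_eq_abs]
  have h8 : HasSum (fun n => |φ (dl n)| * (1 / 4)) ((∑' n, |φ (dl n)|) * (1 / 4)) :=
    hs.hasSum.mul_right _
  refine (tsum_of_norm_bounded h8 fun n => ?_).trans ?_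
  · rw [Real.norm_eq_abs, abs_mul]
    gcongr
    rw [abs_div, abs_neg, abs_of_pos (by norm_num : (0 : ℝ) < 4)]
    have := (Complex.abs_im_le_norm (fs x)).trans hfs
    linarith
  · have := norm_nonneg (Wc φ)
    rw [hsum, hφ]
    linarith

theorem eq_zero_of_numRadius (S : Sp →L[ℝ] Sp) (hS : numRadius S = 0) : S = 0 := by
  have key : ∀ (x : Sp) (f : Du), ‖x‖ = 1 → ‖f‖ ≤ 1 → f x = 1 → f (S x) = 0 := by
    intro x f hx hf hfx
    have h1 : ‖f‖ = 1 := by
      refine le_antisymm hf ?_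
      have := f.le_opNorm x
      rwa [hfx, hx, mul_one, norm_one] at this
    have h2 := le_numRadius S hx h1 hfx
    rw [hS] at h2
    exact abs_eq_zero.1 (le_antisymm h2 (abs_nonneg _))
  have hconorm : ∀ n, ‖co n‖ ≤ 1 := fun n => LinearMap.mkContinuous_norm_le _ zero_le_one _
  -- the coordinates of the sequence vanish
  have hco : ∀ n x, co n (S x) = 0 := by
    intro n
    set ψ : Du := (co n).comp S with hψ
    have h1 : ∀ x : Sp, ‖x‖ ≤ 1 → co n x = 1 → ψ x = 0 := by
      intro x hx hnx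
      have hx1 : ‖x‖ = 1 := by
        refine le_antisymm hx ?_
        have := abs_co_le x n
        rwa [hnx, abs_one] at this
      exact key x (co n) hx1 (hconorm n) hnx
    have hdl : ‖dl n‖ ≤ 1 := by
      rw [norm_le_iff _ zero_le_one]
      unfold dl
      refine ⟨by rw [fs_mk, norm_zero]; exact zero_le_one, fun m => ?_⟩
      rw [co_mk]
      split_ifs <;> simp
    have hnn : co n (dl n) = 1 := by
      have : co n (dl n) = if n = n then 1 else 0 := rfl
      rw [this, if_pos rfl]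
    have hnm : ∀ m, co m (dl n) = if m = n then 1 else 0 := fun m => rfl
    have hfn : fs (dl n) = 0 := rfl
    have h2 : ψ (dl n) = 0 := h1 _ hdl hnn
    have h3 : ∀ x : Sp, ‖x‖ ≤ 1 → ψ x = 0 := by
      intro x hx
      have h4 : ψ (dl n + (1 / 2 : ℝ) • (x - co n x • dl n)) = 0 := by
        apply h1
        · rw [norm_le_iff _ zero_le_one]
          constructor
          · rw [map_add, map_smul, map_sub, map_smul, hfn, smul_zero, sub_zero, zero_add, norm_smul]
            have := (norm_fs_le x).trans hx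
            norm_num
            linarith
          · intro m
            rw [map_add, map_smul, map_sub, map_smul, hnm]
            by_cases hm : m = n
            · rw [if_pos hm, hm]
              simp
            · rw [if_neg hm]
              have := (abs_co_le x m).trans hx
              simp only [smul_eq_mul, mul_zero, sub_zero, zero_add]
              rw [abs_mul, abs_of_pos (by norm_num : (0 : ℝ) < 1 / 2)]
              linarith
        · rw [map_add, map_smul, map_sub, map_smul, hnn]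
          simp
      rw [map_add, map_smul, map_sub, map_smul, h2, smul_zero, sub_zero, zero_add,
        smul_eq_mul] at h4
      linarith
    intro x
    show ψ x = 0
    by_cases hx0 : x = 0
    · rw [hx0, map_zero]
    · have hx' : 0 < ‖x‖ := norm_pos_iff.2 hx0
      have h4 := h3 ((‖x‖⁻¹ : ℝ) • x) (by
        rw [norm_smul, norm_inv, norm_norm, inv_mul_cancel₀ hx'.ne'])
      rw [map_smul, smul_eq_mul] at h4
      exact (mul_eq_zero.1 h4).resolve_left (inv_ne_zero hx'.ne')
  have hre : ∀ x, (fs (S x)).re = 0 := by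
    intro x
    have h1 := tendsto_co (S x)
    simp only [hco] at h1
    have := tendsto_nhds_unique h1 tendsto_const_nhds
    linarith
  -- the imaginary part of the complex coordinate
  set g : Du := Complex.imCLM.comp (fs.comp S) with hg
  have hgx : ∀ x, g x = (fs (S x)).im := fun x => rfl
  have h1 : ∀ x : Sp, ‖x‖ ≤ 1 → ‖fs x‖ = 1 → g x * (fs x).im = 0 := by
    intro x hx hfx
    have hx1 : ‖x‖ = 1 := by
      refine le_antisymm hx ?_
      rw [← hfx]; exact norm_fs_le x
    have h2 := key x (coordsDu.emb (fs x)) hx1 (by rw [coordsDu.norm_emb, hfx]) (by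
      show (starRingEnd ℂ (fs x) * fs x).re = 1
      rw [mul_comm, Complex.mul_conj, Complex.normSq_eq_norm_sq, hfx]
      simp)
    have h3 : (starRingEnd ℂ (fs x) * fs (S x)).re = 0 := h2
    rw [Complex.mul_re, hre, Complex.conj_im, ← hgx] at h3
    linarith
  have hcI : ∀ t : ℝ, |t| ≤ 1 → ∀ n, g (cI + t • dl n) = 0 := by
    intro t ht n
    have h2 := h1 (cI + t • dl n) (by
      rw [norm_le_iff _ zero_le_one]
      constructor
      · rw [map_add, map_smul]
        have : fs (dl n) = 0 := rfl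
        rw [this, smul_zero, add_zero]
        have : fs cI = Complex.I := rfl
        rw [this, Complex.norm_I]
      · intro m
        rw [map_add, map_smul]
        have e1 : co m cI = 0 := rfl
        have e2 : co m (dl n) = if m = n then 1 else 0 := rfl
        rw [e1, e2, zero_add, smul_eq_mul]
        split_ifs
        · rw [mul_one]; exact ht
        · simp) (by
      rw [map_add, map_smul]
      have : fs (dl n) = 0 := rfl
      rw [this, smul_zero, add_zero]
      have : fs cI = Complex.I := rfl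
      rw [this, Complex.norm_I])
    have h3 : (fs (cI + t • dl n)).im = 1 := by
      rw [map_add, map_smul]
      have : fs (dl n) = 0 := rfl
      rw [this, smul_zero, add_zero]
      have : fs cI = Complex.I := rfl
      rw [this, Complex.I_im]
    rw [h3, mul_one] at h2
    exact h2
  have hcI0 : g cI = 0 := by
    have := hcI 0 (by simp) 0
    rwa [zero_smul, add_zero] at this
  have hdl0 : ∀ n, g (dl n) = 0 := by
    intro n
    have := hcI 1 (by simp) n
    rwa [one_smul, map_add, hcI0, zero_add] at this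
  have hc10 : g c1 = 0 := by
    have h2 := h1 ((3 / 5 : ℝ) • c1 + (4 / 5 : ℝ) • cI) (by
      rw [norm_le_iff _ zero_le_one]
      constructor
      · rw [map_add, map_smul, map_smul]
        have e1 : fs c1 = 1 := rfl
        have e2 : fs cI = Complex.I := rfl
        rw [e1, e2]
        have h3 : ‖(3 / 5 : ℝ) • (1 : ℂ) + (4 / 5 : ℝ) • Complex.I‖ ^ 2 = 1 := by
          rw [← Complex.normSq_eq_norm_sq, Complex.normSq_apply]
          simp
          norm_num
        nlinarith [norm_nonneg ((3 / 5 : ℝ) • (1 : ℂ) + (4 / 5 : ℝ) • Complex.I)]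
      · intro m
        rw [map_add, map_smul, map_smul]
        have e1 : co m c1 = 1 / 4 := rfl
        have e2 : co m cI = 0 := rfl
        rw [e1, e2]
        norm_num) (by
      rw [map_add, map_smul, map_smul]
      have e1 : fs c1 = 1 := rfl
      have e2 : fs cI = Complex.I := rfl
      rw [e1, e2]
      have h3 : ‖(3 / 5 : ℝ) • (1 : ℂ) + (4 / 5 : ℝ) • Complex.I‖ ^ 2 = 1 := by
        rw [← Complex.normSq_eq_norm_sq, Complex.normSq_apply]
        simp
        norm_num
      nlinarith [norm_nonneg ((3 / 5 : ℝ) • (1 : ℂ) + (4 / 5 : ℝ) • Complex.I)])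
    have h3 : (fs ((3 / 5 : ℝ) • c1 + (4 / 5 : ℝ) • cI)).im = 4 / 5 := by
      rw [map_add, map_smul, map_smul]
      have e1 : fs c1 = 1 := rfl
      have e2 : fs cI = Complex.I := rfl
      rw [e1, e2]
      simp
    rw [h3, map_add, map_smul, map_smul, hcI0, smul_zero, add_zero, smul_eq_mul] at h2
    linarith
  have hg0 : ∀ x, g x = 0 := by
    intro x
    have h2 := rep g x
    simp only [hdl0, zero_mul] at h2
    have h3 := h2.unique hasSum_zero
    have h4 : Wc g = 0 := by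
      apply Complex.ext
      · rw [Wc_re, hc10]
        simp only [hdl0, tsum_zero]
        simp
      · rw [Wc_im, hcI0]; simp
    rw [h4] at h3
    simpa using h3
  ext1 x
  apply ext_co
  · apply Complex.ext
    · rw [hre]; simp
    · rw [← hgx, hg0]; simp
  · intro n
    rw [hco]; simp

theorem secondIndex_Sp_le : secondIndex Sp ≤ 1 / 4 :=
  secondIndex_le eq_zero_of_numRadius one_le_norm_Top numRadius_Top_le

end Space

theorem result : ∃ (X : Type) (_ : NormedAddCommGroup X) (_ : NormedSpace ℝ X)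
    (_ : CompleteSpace X), secondIndex X < secondIndex (X →L[ℝ] ℝ) := by
  refine ⟨Sp, inferInstance, inferInstance, complete_Sp, ?_⟩
  have h1 := secondIndex_Sp_le
  have h2 := half_le_dual
  linarith

end Pool.Agent.Results.MP_a8e783_an.DualIndexLarger
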